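import Mathlib
import Pool.Agent.Helper21.SR.St

/-!
# Project SR, module EN: energy lemma for partial sumsets
-/

set_option autoImplicit false

namespace Pool.Agent.Helper89.SR

open Finset
open scoped Pointwise
open Pool.Agent.Helper21.SR

/-- second moment of the fibres -/
theorem sq_fib_EN {α β : Type} [DecidableEq α] [DecidableEq β] (s : Finset α) (t : Finset β)
    (g : α → β) (hg : ∀ x ∈ s, g x ∈ t) :
    ∑ z ∈ t, #{q ∈ s | g q = z} ^ 2 = #{qq ∈ s ×ˢ s | g qq.1 = g qq.2} := by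
  rw [Finset.card_eq_sum_card_fiberwise (f := fun qq : α × α => g qq.1) (t := t)]
  · refine Finset.sum_congr rfl fun z _ => ?_
    rw [sq, ← Finset.card_product]
    congr 1
    ext ⟨x, y⟩
    simp only [mem_product, mem_filter]
    constructor
    · rintro ⟨⟨h1, h2⟩, h3, h4⟩
      exact ⟨⟨⟨h1, h3⟩, h2.trans h4.symm⟩, h2⟩
    · rintro ⟨⟨⟨h1, h2⟩, h3⟩, h4⟩
      exact ⟨⟨h1, h4⟩, h2, h3.symm.trans h4⟩
  · intro qq hqq
    simp only [coe_filter, mem_product, Set.mem_setOf_eq] at hqq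
    exact hg _ hqq.1.1

/-- the bound for one ratio -/
theorem ratio_EN (X S Y V CC : Finset ℝ) (Γ : Finset (ℝ × ℝ)) (t : ℝ) (m : ℕ)
    (hX : #X ≤ m) (hVX : X ⊆ V) (hVS : S ⊆ V) (hY : ∀ y ∈ Y, 0 < y)
    (hΓ : ∀ p ∈ Γ, p.1 ∈ X ∧ p.2 ∈ Y ∧ p.1 + p.2 ∈ S)
    (hCC : ∀ a ∈ X, ∀ b ∈ X, b - t * a ∈ CC) :
    #{g ∈ Γ ×ˢ Γ | g.2.2 / g.1.2 = t} ^ 2 ≤
      m ^ 2 * ∑ c ∈ CC.filter (fun c => 2 ≤ kap V t c), kap V t c ^ 3 := by
  set Ct := CC.filter (fun c => 2 ≤ kap V t c) with hCt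
  set kX : ℝ → Finset ℝ := fun c => X.filter (fun a => t * a + c ∈ X) with hkX
  set kS : ℝ → Finset ℝ := fun c => S.filter (fun a => t * a + c ∈ S) with hkS
  have h1 : #{g ∈ Γ ×ˢ Γ | g.2.2 / g.1.2 = t} ≤ ∑ c ∈ Ct, #(kX c) * #(kS c) := by
    have e : ∑ c ∈ Ct, #(kX c) * #(kS c) = #(Ct.sigma (fun c => kX c ×ˢ kS c)) := by
      rw [Finset.card_sigma]
      exact Finset.sum_congr rfl fun c _ => (Finset.card_product _ _).symm
    rw [e]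
    refine Finset.card_le_card_of_injOn
      (fun g => (⟨g.2.1 - t * g.1.1, (g.1.1, g.1.1 + g.1.2)⟩ : Σ _ : ℝ, ℝ × ℝ)) ?_ ?_
    · rintro ⟨⟨a, y⟩, ⟨b, y'⟩⟩ hg
      simp only [coe_filter, mem_product, Set.mem_setOf_eq] at hg
      obtain ⟨⟨g1, g2⟩, g3⟩ := hg
      obtain ⟨a1, a2, a3⟩ := hΓ _ g1
      obtain ⟨b1, b2, b3⟩ := hΓ _ g2
      simp only at a1 a2 a3 b1 b2 b3
      have hy : 0 < y := hY y a2
      have hy' : y' = t * y := by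
        rw [← g3]
        field_simp
      have e1 : t * a + (b - t * a) = b := by ring
      have e2 : t * (a + y) + (b - t * a) = b + y' := by rw [hy']; ring
      simp only [coe_sigma, Set.mem_sigma_iff, mem_coe, mem_product]
      refine ⟨?_, ?_, ?_⟩
      · rw [hCt, mem_filter]
        refine ⟨hCC a a1 b b1, ?_⟩
        unfold kap
        have hsub : ({a, a + y} : Finset ℝ) ⊆ {x ∈ V | t * x + (b - t * a) ∈ V} := by
          intro x hx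
          rw [mem_insert, mem_singleton] at hx
          rw [mem_filter]
          rcases hx with rfl | rfl
          · exact ⟨hVX a1, by rw [e1]; exact hVX b1⟩
          · exact ⟨hVS a3, by rw [e2]; exact hVS b3⟩
        have hc := card_le_card hsub
        rw [card_pair (by linarith)] at hc
        exact hc
      · simp only [hkX, mem_filter]
        exact ⟨a1, by rw [e1]; exact b1⟩
      · simp only [hkS, mem_filter]
        exact ⟨a3, by rw [e2]; exact b3⟩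
    · rintro ⟨⟨a, y⟩, ⟨b, y'⟩⟩ hg ⟨⟨a', z⟩, ⟨b', z'⟩⟩ hg' heq
      simp only [coe_filter, mem_product, Set.mem_setOf_eq] at hg hg'
      obtain ⟨⟨g1, g2⟩, g3⟩ := hg
      obtain ⟨⟨g1', g2'⟩, g3'⟩ := hg'
      have hy : 0 < y := hY y (hΓ _ g1).2.1
      have hz : 0 < z := hY z (hΓ _ g1').2.1
      simp only [Sigma.mk.injEq, heq_eq_eq, Prod.mk.injEq] at heq
      obtain ⟨q1, q2, q3⟩ := heq
      subst q2
      have q4 : y = z := by linarith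
      subst q4
      have q5 : b = b' := by linarith
      subst q5
      have q6 : y' = t * y := by rw [← g3]; field_simp
      have q7 : z' = t * y := by rw [← g3']; field_simp
      rw [q6, q7]
  have h2 : (∑ c ∈ Ct, #(kX c) * #(kS c)) ^ 2 ≤
      (∑ c ∈ Ct, #(kX c)) * ∑ c ∈ Ct, #(kX c) * #(kS c) ^ 2 := by
    refine Finset.sum_sq_le_sum_mul_sum_of_sq_eq_mul Ct (fun _ _ => Nat.zero_le _)
      (fun _ _ => Nat.zero_le _) fun c _ => ?_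
    ring
  have h3 : ∑ c ∈ Ct, #(kX c) ≤ m ^ 2 := by
    have e : ∑ c ∈ Ct, #(kX c) = #(Ct.sigma kX) := (Finset.card_sigma _ _).symm
    rw [e]
    have hle : #(Ct.sigma kX) ≤ #(X ×ˢ X) := by
      refine Finset.card_le_card_of_injOn (fun z : Σ _ : ℝ, ℝ => (z.2, t * z.2 + z.1)) ?_ ?_
      · rintro ⟨c, a⟩ hz
        simp only [coe_sigma, Set.mem_sigma_iff, mem_coe, hkX, mem_filter] at hz
        simp only [coe_product, Set.mem_prod, mem_coe]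
        exact ⟨hz.2.1, hz.2.2⟩
      · rintro ⟨c, a⟩ _ ⟨c', a'⟩ _ heq
        simp only [Prod.mk.injEq] at heq
        obtain ⟨q1, q2⟩ := heq
        subst q1
        have : c = c' := by linarith
        subst this
        rfl
    rw [card_product] at hle
    calc #(Ct.sigma kX) ≤ #X * #X := hle
      _ ≤ m * m := Nat.mul_le_mul hX hX
      _ = m ^ 2 := by ring
  have h4 : ∑ c ∈ Ct, #(kX c) * #(kS c) ^ 2 ≤ ∑ c ∈ Ct, kap V t c ^ 3 := by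
    refine Finset.sum_le_sum fun c _ => ?_
    have k1 : #(kX c) ≤ kap V t c := by
      unfold kap
      refine card_le_card fun a ha => ?_
      simp only [hkX, mem_filter] at ha
      rw [mem_filter]
      exact ⟨hVX ha.1, hVX ha.2⟩
    have k2 : #(kS c) ≤ kap V t c := by
      unfold kap
      refine card_le_card fun a ha => ?_
      simp only [hkS, mem_filter] at ha
      rw [mem_filter]
      exact ⟨hVS ha.1, hVS ha.2⟩
    calc #(kX c) * #(kS c) ^ 2 ≤ kap V t c * kap V t c ^ 2 :=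
          Nat.mul_le_mul k1 (Nat.pow_le_pow_left k2 2)
      _ = kap V t c ^ 3 := by ring
  calc #{g ∈ Γ ×ˢ Γ | g.2.2 / g.1.2 = t} ^ 2 ≤ (∑ c ∈ Ct, #(kX c) * #(kS c)) ^ 2 :=
        Nat.pow_le_pow_left h1 2
    _ ≤ (∑ c ∈ Ct, #(kX c)) * ∑ c ∈ Ct, #(kX c) * #(kS c) ^ 2 := h2
    _ ≤ m ^ 2 * ∑ c ∈ Ct, kap V t c ^ 3 := Nat.mul_le_mul h3 h4

theorem hEn (hCube : StCube) : StEn := by
  intro X S Y Γ m hX hS hY hΓ
  classical
  rcases Nat.eq_zero_or_pos m with hm | hm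
  · subst hm
    have hX0 : X = ∅ := card_eq_zero.mp (by omega)
    have hΓ0 : Γ = ∅ := by
      rw [eq_empty_iff_forall_notMem]
      intro p hp
      have := (hΓ p hp).1
      rw [hX0] at this
      exact absurd this (notMem_empty _)
    rw [hΓ0]
    simp
  set V := X ∪ S with hV
  have hVc : #V ≤ 2 * m := (card_union_le _ _).trans (by omega)
  set R := (Y ×ˢ Y).image (fun q => q.2 / q.1) with hR
  set CC := ((R ×ˢ X) ×ˢ X).image (fun z => z.2 - z.1.1 * z.1.2) with hCCd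
  -- step 1: products
  have s1 : ∑ z ∈ Y * Y, #{g ∈ Γ ×ˢ Γ | g.1.2 * g.2.2 = z} = #Γ ^ 2 := by
    rw [← Finset.card_eq_sum_card_fiberwise (f := fun g : (ℝ × ℝ) × (ℝ × ℝ) => g.1.2 * g.2.2)
      (s := Γ ×ˢ Γ) (t := Y * Y)]
    · rw [card_product, sq]
    · rintro ⟨p, q⟩ hg
      simp only [coe_product, Set.mem_prod, mem_coe] at hg
      exact mul_mem_mul (hΓ _ hg.1).2.1 (hΓ _ hg.2).2.1
  have s2 : (#Γ ^ 2) ^ 2 ≤ #(Y * Y) * ∑ z ∈ Y * Y, #{g ∈ Γ ×ˢ Γ | g.1.2 * g.2.2 = z} ^ 2 := by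
    rw [← s1]
    exact sq_sum_le_card_mul_sum_sq
  have s3 : ∑ z ∈ Y * Y, #{g ∈ Γ ×ˢ Γ | g.1.2 * g.2.2 = z} ^ 2 =
      #{gg ∈ (Γ ×ˢ Γ) ×ˢ (Γ ×ˢ Γ) | gg.1.1.2 * gg.1.2.2 = gg.2.1.2 * gg.2.2.2} := by
    refine sq_fib_EN (Γ ×ˢ Γ) (Y * Y) (fun g => g.1.2 * g.2.2) ?_
    rintro ⟨p, q⟩ hg
    rw [mem_product] at hg
    exact mul_mem_mul (hΓ _ hg.1).2.1 (hΓ _ hg.2).2.1
  have s4 : ∑ t ∈ R, #{g ∈ Γ ×ˢ Γ | g.2.2 / g.1.2 = t} ^ 2 =
      #{gg ∈ (Γ ×ˢ Γ) ×ˢ (Γ ×ˢ Γ) | gg.1.2.2 / gg.1.1.2 = gg.2.2.2 / gg.2.1.2} := by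
    refine sq_fib_EN (Γ ×ˢ Γ) R (fun g => g.2.2 / g.1.2) ?_
    rintro ⟨p, q⟩ hg
    rw [mem_product] at hg
    rw [hR, mem_image]
    exact ⟨(p.2, q.2), by rw [mem_product]; exact ⟨(hΓ _ hg.1).2.1, (hΓ _ hg.2).2.1⟩, rfl⟩
  have s5 : #{gg ∈ (Γ ×ˢ Γ) ×ˢ (Γ ×ˢ Γ) | gg.1.1.2 * gg.1.2.2 = gg.2.1.2 * gg.2.2.2} ≤
      #{gg ∈ (Γ ×ˢ Γ) ×ˢ (Γ ×ˢ Γ) | gg.1.2.2 / gg.1.1.2 = gg.2.2.2 / gg.2.1.2} := by
    refine Finset.card_le_card_of_injOn
      (fun gg : ((ℝ × ℝ) × (ℝ × ℝ)) × ((ℝ × ℝ) × (ℝ × ℝ)) =>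
        ((gg.2.1, gg.1.1), (gg.1.2, gg.2.2))) ?_ ?_
    · rintro ⟨⟨p1, p2⟩, ⟨p3, p4⟩⟩ hg
      simp only [coe_filter, mem_product, Set.mem_setOf_eq] at hg ⊢
      obtain ⟨⟨⟨g1, g2⟩, g3, g4⟩, g5⟩ := hg
      refine ⟨⟨⟨g3, g1⟩, g2, g4⟩, ?_⟩
      have y3 := hY _ (hΓ _ g3).2.1
      have y2 := hY _ (hΓ _ g2).2.1
      rw [div_eq_div_iff y3.ne' y2.ne', g5]
      ring
    · rintro ⟨⟨p1, p2⟩, ⟨p3, p4⟩⟩ _ ⟨⟨q1, q2⟩, ⟨q3, q4⟩⟩ _ heq
      simp only [Prod.mk.injEq] at heq ⊢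
      tauto
  -- step 2: ratios
  have s6 : ∑ t ∈ R, #{g ∈ Γ ×ˢ Γ | g.2.2 / g.1.2 = t} ^ 2 ≤
      ∑ t ∈ R, m ^ 2 * ∑ c ∈ CC.filter (fun c => 2 ≤ kap V t c), kap V t c ^ 3 := by
    refine Finset.sum_le_sum fun t ht => ?_
    refine ratio_EN X S Y V CC Γ t m hX subset_union_left subset_union_right hY hΓ ?_
    intro a ha b hb
    rw [hCCd, mem_image]
    exact ⟨((t, a), b), by simp only [mem_product]; exact ⟨⟨ht, ha⟩, hb⟩, rfl⟩
  have s7 : ∑ t ∈ R, m ^ 2 * ∑ c ∈ CC.filter (fun c => 2 ≤ kap V t c), kap V t c ^ 3 =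
      m ^ 2 * ∑ l ∈ (R ×ˢ CC).filter (fun l => 2 ≤ kap V l.1 l.2), kap V l.1 l.2 ^ 3 := by
    rw [← Finset.mul_sum]
    congr 1
    rw [Finset.sum_filter, Finset.sum_product]
    refine Finset.sum_congr rfl fun t _ => ?_
    rw [Finset.sum_filter]
  have s8 := hCube V ((R ×ˢ CC).filter (fun l => 2 ≤ kap V l.1 l.2)) (by
    intro l hl
    rw [mem_filter, mem_product] at hl
    refine ⟨?_, hl.2⟩
    have h1 := hl.1.1
    rw [hR, mem_image] at h1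
    obtain ⟨q, hq, he⟩ := h1
    rw [mem_product] at hq
    rw [← he]
    exact div_pos (hY _ hq.2) (hY _ hq.1))
  have s9 : 4096 * #V ^ 4 * (Nat.log 2 #V + 1) ≤ 65536 * m ^ 4 * (Nat.log 2 m + 2) := by
    have l1 : Nat.log 2 #V ≤ Nat.log 2 (2 * m) := Nat.log_mono_right hVc
    have l2 : Nat.log 2 (2 * m) = Nat.log 2 m + 1 := by
      rw [mul_comm, Nat.log_mul_base (by norm_num) (by omega)]
    have l3 : #V ^ 4 ≤ (2 * m) ^ 4 := Nat.pow_le_pow_left hVc 4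
    calc 4096 * #V ^ 4 * (Nat.log 2 #V + 1) ≤ 4096 * (2 * m) ^ 4 * (Nat.log 2 m + 2) :=
          Nat.mul_le_mul (Nat.mul_le_mul le_rfl l3) (by omega)
      _ = 65536 * m ^ 4 * (Nat.log 2 m + 2) := by ring
  calc #Γ ^ 4 = (#Γ ^ 2) ^ 2 := by ring
    _ ≤ #(Y * Y) * ∑ z ∈ Y * Y, #{g ∈ Γ ×ˢ Γ | g.1.2 * g.2.2 = z} ^ 2 := s2
    _ ≤ #(Y * Y) * (m ^ 2 * (65536 * m ^ 4 * (Nat.log 2 m + 2))) := by
        refine Nat.mul_le_mul le_rfl ?_
        rw [s3]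
        refine s5.trans ?_
        rw [← s4]
        refine s6.trans ?_
        rw [s7]
        exact Nat.mul_le_mul le_rfl (s8.trans s9)
    _ = 65536 * m ^ 6 * (Nat.log 2 m + 2) * #(Y * Y) := by ring

end Pool.Agent.Helper89.SR
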